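import Mathlib
import Pool.Agent.Y627.SP.All
import Pool.Agent.Y627.SP.UnifD
import Pool.Agent.R330.EU.Upper
import Pool.Agent.Results.MP_5a602a_nt.JointSpectrum

/-!
# The spectra of the uniform exact-degree exponents contain `[0, n]`
-/

set_option autoImplicit false

namespace Pool.Agent.Results.MP_5a602a_nt.UniformSpectra

open Polynomial

/-- The naive height of an integer polynomial: the maximum of the absolute values of its
coefficients. -/
def naiveHeight (P : ℤ[X]) : ℕ := P.support.sup fun i => (P.coeff i).natAbs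

/-- Mahler's exponent `w_n(ζ)`: the supremum of the real `w` for which infinitely many integer
polynomials `P` of degree at most `n` satisfy `0 < |P(ζ)| ≤ H(P)^(-w)`. -/
noncomputable def mahler (n : ℕ) (ζ : ℝ) : EReal :=
  sSup {W : EReal | ∃ w : ℝ, W = (w : EReal) ∧
    {P : ℤ[X] | P.natDegree ≤ n ∧ 0 < |aeval ζ P| ∧
      |aeval ζ P| ≤ (naiveHeight P : ℝ) ^ (-w)}.Infinite}

/-- For every sufficiently large real `X` there is an irreducible integer polynomial `P` of degree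
exactly `n` with `H(P) ≤ X` and `0 < |P(ζ)| ≤ X^(-w)`. -/
def UniformlySolvable (n : ℕ) (ζ w : ℝ) : Prop :=
  ∃ X₀ : ℝ, ∀ X : ℝ, X₀ ≤ X → 1 ≤ X → ∃ P : ℤ[X], P.natDegree = n ∧ Irreducible P ∧
    (naiveHeight P : ℝ) ≤ X ∧ 0 < |aeval ζ P| ∧ |aeval ζ P| ≤ X ^ (-w)

/-- The exponent `ŵ_{=n}(ζ)`, as an extended real number. -/
noncomputable def wHatExact (n : ℕ) (ζ : ℝ) : EReal :=
  sSup {W : EReal | ∃ w : ℝ, W = (w : EReal) ∧ UniformlySolvable n ζ w}

/-- For every sufficiently large real `X` there is a non-zero real algebraic number `α` of degree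
exactly `n` with `H(α) ≤ X` and `0 < |ζ - α| ≤ H(α)^(-1) X^(-w)`. The degree and the height of `α`
are the degree and the height of the irreducible integer polynomial with root `α`, which is unique
up to sign. -/
def StarUniformlySolvable (n : ℕ) (ζ w : ℝ) : Prop :=
  ∃ X₀ : ℝ, ∀ X : ℝ, X₀ ≤ X → 1 ≤ X → ∃ (α : ℝ) (P : ℤ[X]), α ≠ 0 ∧ Irreducible P ∧
    aeval α P = 0 ∧ P.natDegree = n ∧ (naiveHeight P : ℝ) ≤ X ∧ 0 < |ζ - α| ∧
    |ζ - α| ≤ (naiveHeight P : ℝ)⁻¹ * X ^ (-w)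

/-- The exponent `ŵ^*_{=n}(ζ)`, as an extended real number. -/
noncomputable def wHatStarExact (n : ℕ) (ζ : ℝ) : EReal :=
  sSup {W : EReal | ∃ w : ℝ, W = (w : EReal) ∧ StarUniformlySolvable n ζ w}

/-- The spectrum of `ŵ_{=n}`: the set of its values at the transcendental real numbers. -/
def hatSpectrum (n : ℕ) : Set EReal := {x | ∃ ζ : ℝ, Transcendental ℚ ζ ∧ wHatExact n ζ = x}

/-- The spectrum of `ŵ^*_{=n}`. -/
def hatStarSpectrum (n : ℕ) : Set EReal :=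
  {x | ∃ ζ : ℝ, Transcendental ℚ ζ ∧ wHatStarExact n ζ = x}

open Pool.Agent.R330.EU

lemma root_of_trans {ζ : ℝ} (hζ : Transcendental ℚ ζ) (P : ℤ[X]) (hP : P ≠ 0) :
    aeval ζ P ≠ 0 := by
  intro h
  apply hζ
  refine ⟨P.map (algebraMap ℤ ℚ), ?_, ?_⟩
  · rw [Ne, Polynomial.map_eq_zero_iff (algebraMap ℤ ℚ).injective_int]
    exact hP
  · rw [aeval_map_algebraMap]
    exact h

lemma hfin_of_mahler {n : ℕ} {ζ : ℝ} (v : ℝ) :
    {P : ℤ[X] | P ≠ 0 ∧ P.natDegree ≤ n ∧ |aeval ζ P| ≤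
      ((Pool.Agent.W71.Ht n P : ℕ) : ℝ) ^ (-v)} ⊆
      {P : ℤ[X] | P.natDegree ≤ n ∧ 0 < |aeval ζ P| ∧
      |aeval ζ P| ≤ (naiveHeight P : ℝ) ^ (-v)} ∪ {P : ℤ[X] | P ≠ 0 ∧ aeval ζ P = 0} := by
  rintro P ⟨h1, h2, h3⟩
  by_cases h0 : aeval ζ P = 0
  · exact Or.inr ⟨h1, h0⟩
  · refine Or.inl ⟨h2, abs_pos.2 h0, ?_⟩
    have : Pool.Agent.W71.Ht n P = naiveHeight P := (Pool.Agent.W71.hgt_eq_Ht h2).symm
    rwa [this] at h3

lemma fin_of_mahler {n : ℕ} {ζ W : ℝ} (hζ : Transcendental ℚ ζ)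
    (h : mahler n ζ ≤ (W : EReal)) (v : ℝ) (hv : W < v) :
    {P : ℤ[X] | P ≠ 0 ∧ P.natDegree ≤ n ∧ |aeval ζ P| ≤
      ((Pool.Agent.W71.Ht n P : ℕ) : ℝ) ^ (-v)}.Finite := by
  have h1 : {P : ℤ[X] | P.natDegree ≤ n ∧ 0 < |aeval ζ P| ∧
      |aeval ζ P| ≤ (naiveHeight P : ℝ) ^ (-v)}.Finite := by
    by_contra hcon
    have h2 : (v : EReal) ≤ mahler n ζ := le_sSup ⟨v, rfl, hcon⟩
    have h3 := h2.trans h
    rw [EReal.coe_le_coe_iff] at h3
    linarith
  have h2 : {P : ℤ[X] | P ≠ 0 ∧ aeval ζ P = 0} = ∅ := by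
    ext P
    simp only [Set.mem_ofPred_eq, Set.mem_empty_iff_false, iff_false, not_and]
    exact fun hP => root_of_trans hζ P hP
  refine Set.Finite.subset (h1.union ?_) (hfin_of_mahler v)
  rw [h2]
  exact Set.finite_empty

/-- the lower bound for both exponents, from finiteness -/
lemma lower_aux (n : ℕ) (hn : 1 ≤ n) (ξ w : ℝ) (hw : (n : ℝ) ≤ w)
    (hξ : ∀ P : ℤ[X], P ≠ 0 → aeval ξ P ≠ 0)
    (hfin : ∀ v : ℝ, w < v → {P : ℤ[X] | P ≠ 0 ∧ P.natDegree ≤ n ∧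
      |aeval ξ P| ≤ ((Pool.Agent.W71.Ht n P : ℕ) : ℝ) ^ (-v)}.Finite) :
    (((n : ℝ) / (w - n + 1) : ℝ) : EReal) ≤ wHatExact n ξ ∧
    (((n : ℝ) / (w - n + 1) : ℝ) : EReal) ≤ wHatStarExact n ξ := by
  have hn1 : (1 : ℝ) ≤ n := by exact_mod_cast hn
  have hg : 0 < w - n + 1 := by linarith
  have key : ∀ r : ℝ, 0 < r → r < n / (w - n + 1) → (r : EReal) ≤ wHatExact n ξ ∧
      (r : EReal) ≤ wHatStarExact n ξ := by
    intro r hr hrn
    rw [lt_div_iff₀ hg] at hrn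
    obtain ⟨X₀, hX₀⟩ := exact_unif_lower n hn ξ w r hw hr hrn hξ hfin
    constructor
    · apply le_sSup
      refine ⟨r, rfl, X₀, fun X hX _ => ?_⟩
      obtain ⟨α, Q, k1, k2, k3, k4, k5, k6, k7, k8, k9⟩ := hX₀ X hX
      exact ⟨Q, k2, k1, k5, k8, k9⟩
    · apply le_sSup
      refine ⟨r, rfl, X₀, fun X hX _ => ?_⟩
      obtain ⟨α, Q, k1, k2, k3, k4, k5, k6, k7, k8, k9⟩ := hX₀ X hX
      exact ⟨α, Q, k4, k1, k3, k2, k5, k6, k7⟩
  have hq0 : 0 < (n : ℝ) / (w - n + 1) := by positivity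
  have main : ∀ x : EReal, (∀ r : ℝ, 0 < r → r < n / (w - n + 1) → (r : EReal) ≤ x) →
      (((n : ℝ) / (w - n + 1) : ℝ) : EReal) ≤ x := by
    intro x hx
    apply le_of_forall_lt
    intro c hc
    obtain ⟨r, hr1, hr2⟩ := EReal.lt_iff_exists_real_btwn.1 hc
    rw [EReal.coe_lt_coe_iff] at hr2
    set r' : ℝ := max r ((n : ℝ) / (w - n + 1) / 2) with hr'
    have hr'0 : 0 < r' := lt_of_lt_of_le (by positivity) (le_max_right _ _)
    have hr'2 : r' < (n : ℝ) / (w - n + 1) := max_lt hr2 (by linarith)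
    exact hr1.trans_le ((EReal.coe_le_coe_iff.2 (le_max_left _ _)).trans (hx r' hr'0 hr'2))
  exact ⟨main _ fun r h1 h2 => (key r h1 h2).1, main _ fun r h1 h2 => (key r h1 h2).2⟩

/-- the upper bound for both exponents, from good rational approximations -/
lemma upper_aux (n : ℕ) (hn : 2 ≤ n) (ξ w : ℝ) (hw : (n : ℝ) ≤ w)
    (hinf : {α : ℝ | ∃ P : ℤ[X], Pool.Agent.W71.MinPolyZ P α ∧ P.natDegree = 1 ∧
      |ξ - α| < (Pool.Agent.W71.hgt P : ℝ) ^ (-(1 + w))}.Infinite) :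
    wHatExact n ξ ≤ (((n : ℝ) / (w - n + 1) : ℝ) : EReal) ∧
    wHatStarExact n ξ ≤ (((n : ℝ) / (w - n + 1) : ℝ) : EReal) := by
  have hg : 0 < w - n + 1 := by linarith
  constructor
  · apply sSup_le
    rintro W ⟨r, rfl, X₀, hX₀⟩
    rw [EReal.coe_le_coe_iff]
    by_contra hcon
    push Not at hcon
    rw [div_lt_iff₀ hg] at hcon
    obtain ⟨X, h1, h2, h3⟩ := exact_unif_upper n hn ξ w r hw hcon hinf X₀
    obtain ⟨P, k1, k2, k3, -, k5⟩ := hX₀ X h1 h2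
    exact absurd k5 (not_le.2 (h3 P k2 k1 k3))
  · apply sSup_le
    rintro W ⟨r, rfl, X₀, hX₀⟩
    rw [EReal.coe_le_coe_iff]
    by_contra hcon
    push Not at hcon
    rw [div_lt_iff₀ hg] at hcon
    obtain ⟨X, h1, h2, h3⟩ := exact_unif_upper_star n hn ξ w r hw hcon hinf X₀
    obtain ⟨α, P, -, k1, k2, k3, k4, -, k5⟩ := hX₀ X h1 h2
    exact absurd k5 (not_le.2 (h3 α P k1 k3 k2 k4))

/-- the trivial upper bound -/
lemma upper_triv (n : ℕ) (ξ w : ℝ) (hw : 0 ≤ w)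
    (hξ : ∀ P : ℤ[X], P ≠ 0 → aeval ξ P ≠ 0)
    (hfin : ∀ v : ℝ, w < v → {P : ℤ[X] | P ≠ 0 ∧ P.natDegree ≤ n ∧
      |aeval ξ P| ≤ ((Pool.Agent.W71.Ht n P : ℕ) : ℝ) ^ (-v)}.Finite) :
    wHatExact n ξ ≤ (w : EReal) ∧ wHatStarExact n ξ ≤ (w : EReal) := by
  constructor
  · apply sSup_le
    rintro W ⟨r, rfl, X₀, hX₀⟩
    rw [EReal.coe_le_coe_iff]
    by_contra hcon
    push Not at hcon
    obtain ⟨v, hv1, hv2⟩ := exists_between hcon
    obtain ⟨Z₀, hZ₀⟩ := Pool.Agent.TH970.SE.upper (n := n) ξ v (by linarith) hξ (hfin v hv1)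
    set X : ℝ := max (max X₀ Z₀) 1 with hX
    have hX1 : 1 ≤ X := le_max_right _ _
    obtain ⟨P, k1, k2, k3, -, k5⟩ := hX₀ X ((le_max_left _ _).trans (le_max_left _ _)) hX1
    have h1 := hZ₀ X ((le_max_right _ _).trans (le_max_left _ _)) hX1 P k2.ne_zero k1.le k3
    have h2 : X ^ (-r) ≤ X ^ (-v) := Real.rpow_le_rpow_of_exponent_le hX1 (by linarith)
    linarith
  · apply sSup_le
    rintro W ⟨r, rfl, X₀, hX₀⟩
    rw [EReal.coe_le_coe_iff]
    by_contra hcon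
    push Not at hcon
    obtain ⟨X, h1, h2⟩ := Pool.Agent.Y627.SP.unif_upper_triv n ξ w r hw hcon hξ hfin (max X₀ 1)
    obtain ⟨α, P, -, k1, k2, k3, k4, -, k5⟩ := hX₀ X ((le_max_left _ _).trans h1)
      ((le_max_right _ _).trans h1)
    exact absurd k5 (not_le.2 (h2 α P k1 k3.le k2 k4))

/-- both exponents are non-negative -/
lemma nonneg_aux (n : ℕ) (hn : 1 ≤ n) (ζ : ℝ) (hζ : Transcendental ℚ ζ) :
    (0 : EReal) ≤ wHatExact n ζ ∧ (0 : EReal) ≤ wHatStarExact n ζ := by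
  -- the polynomial `X ^ n - 2` and its root
  obtain ⟨β, hβ0, hβ⟩ : ∃ β : ℝ, 0 < β ∧ β ^ n = 2 := by
    refine ⟨(2 : ℝ) ^ (1 / (n : ℝ)), by positivity, ?_⟩
    rw [← Real.rpow_natCast, ← Real.rpow_mul (by norm_num), one_div_mul_cancel (by
      have : 0 < n := hn
      positivity), Real.rpow_one]
  set Q : ℤ[X] := X ^ n - C 2 with hQ
  have hQdeg : Q.natDegree = n := natDegree_X_pow_sub_C
  have hQirr : Irreducible Q := by
    have hprime : (Ideal.span {(2 : ℤ)}).IsPrime :=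
      (Ideal.span_singleton_prime (by norm_num)).2 Int.prime_two
    have hmon : Q.Monic := monic_X_pow_sub_C 2 (by omega)
    have hdeg : Q.degree = n := by rw [degree_eq_natDegree hmon.ne_zero, hQdeg]
    apply irreducible_of_eisenstein_criterion hprime
    · rw [hmon.leadingCoeff, Ideal.mem_span_singleton]
      norm_num
    · intro i hi
      rw [hdeg] at hi
      have hi' : i < n := by exact_mod_cast hi
      rw [Ideal.mem_span_singleton, hQ, coeff_sub, coeff_X_pow, if_neg (by omega), coeff_C]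
      split_ifs <;> norm_num
    · rw [hdeg]; exact_mod_cast hn
    · rw [Ideal.span_singleton_pow, Ideal.mem_span_singleton, hQ, coeff_sub, coeff_X_pow,
        if_neg (by omega), coeff_C_zero]
      norm_num
    · exact hmon.isPrimitive
  have hQβ : aeval β Q = 0 := by
    rw [hQ, map_sub, map_pow, aeval_X, aeval_C, hβ]
    norm_num
  have hQζ : aeval ζ Q ≠ 0 := root_of_trans hζ Q hQirr.ne_zero
  have hζβ : ζ ≠ β := by
    rintro rfl
    exact hQζ hQβ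
  have key : ∀ r : ℝ, r < 0 → (r : EReal) ≤ wHatExact n ζ ∧ (r : EReal) ≤ wHatStarExact n ζ := by
    intro r hr
    have ht : Filter.Tendsto (fun X : ℝ => X ^ (-r)) Filter.atTop Filter.atTop :=
      tendsto_rpow_atTop (by linarith)
    obtain ⟨X₁, hX₁⟩ := Filter.eventually_atTop.1
      ((ht.eventually_ge_atTop |aeval ζ Q|).and (ht.eventually_ge_atTop
        ((naiveHeight Q : ℝ) * |ζ - β|)))
    constructor
    · apply le_sSup
      refine ⟨r, rfl, max X₁ (naiveHeight Q), fun X hX _ => ?_⟩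
      exact ⟨Q, hQdeg, hQirr, (le_max_right _ _).trans hX, abs_pos.2 hQζ,
        (hX₁ X ((le_max_left _ _).trans hX)).1⟩
    · apply le_sSup
      refine ⟨r, rfl, max X₁ (naiveHeight Q), fun X hX _ => ?_⟩
      refine ⟨β, Q, hβ0.ne', hQirr, hQβ, hQdeg, (le_max_right _ _).trans hX,
        abs_pos.2 (sub_ne_zero.2 hζβ), ?_⟩
      have h1 : (1 : ℝ) ≤ naiveHeight Q := by
        exact_mod_cast Pool.Agent.W71.hgt_pos hQirr.ne_zero
      have h2 := (hX₁ X ((le_max_left _ _).trans hX)).2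
      rw [← div_eq_inv_mul, le_div_iff₀ (by linarith)]
      linarith
  have main : ∀ x : EReal, (∀ r : ℝ, r < 0 → (r : EReal) ≤ x) → (0 : EReal) ≤ x := by
    intro x hx
    apply le_of_forall_lt
    intro c hc
    obtain ⟨r, hr1, hr2⟩ := EReal.lt_iff_exists_real_btwn.1 hc
    have hr2' : r < 0 := by exact_mod_cast hr2
    exact hr1.trans_le (hx r hr2')
  exact ⟨main _ fun r h => (key r h).1, main _ fun r h => (key r h).2⟩

/-- (A) For every `n ≥ 1` and every transcendental real `ζ` whose Mahler exponent satisfies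
`w_n(ζ) ≤ W` with a real `W ≥ n`, both `ŵ_{=n}(ζ)` and `ŵ^*_{=n}(ζ)` are at least
`n / (W - n + 1)`.
(B) For every non-decreasing sequence of real numbers `w_n ≥ n` (`n ≥ 1`) there is a transcendental
real `ζ` with `w_{=n}(ζ) = w^*_{=n}(ζ) = w_n` for all `n ≥ 1` and
`ŵ_{=n}(ζ) = ŵ^*_{=n}(ζ) = n / (w_n - n + 1)` for all `n ≥ 1` such that `w_n = n`, or `n ≥ 2` and
`w_n = w_1`.
(C) For every `n ≥ 2` the spectra of `ŵ_{=n}` and of `ŵ^*_{=n}` contain the interval `[0, n]`. -/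
theorem result :
    (∀ (n : ℕ) (ζ W : ℝ), 1 ≤ n → Transcendental ℚ ζ → (n : ℝ) ≤ W → mahler n ζ ≤ (W : EReal) →
      (((n : ℝ) / (W - n + 1) : ℝ) : EReal) ≤ wHatExact n ζ ∧
      (((n : ℝ) / (W - n + 1) : ℝ) : EReal) ≤ wHatStarExact n ζ) ∧
    (∀ w : ℕ → ℝ, (∀ n : ℕ, 1 ≤ n → (n : ℝ) ≤ w n) → (∀ i j : ℕ, 1 ≤ i → i ≤ j → w i ≤ w j) →
      ∃ ζ : ℝ, Transcendental ℚ ζ ∧ ∀ n : ℕ, 1 ≤ n →
        JointSpectrum.wExact n ζ = (w n : EReal) ∧ JointSpectrum.wStarExact n ζ = (w n : EReal) ∧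
        ((w n = n ∨ (2 ≤ n ∧ w n = w 1)) →
          wHatExact n ζ = (((n : ℝ) / (w n - n + 1) : ℝ) : EReal) ∧
          wHatStarExact n ζ = (((n : ℝ) / (w n - n + 1) : ℝ) : EReal))) ∧
    (∀ n : ℕ, 2 ≤ n → Set.Icc 0 (n : EReal) ⊆ hatSpectrum n ∧
      Set.Icc 0 (n : EReal) ⊆ hatStarSpectrum n) := by
  have hB : ∀ w : ℕ → ℝ, (∀ n : ℕ, 1 ≤ n → (n : ℝ) ≤ w n) →
      (∀ i j : ℕ, 1 ≤ i → i ≤ j → w i ≤ w j) →
      ∃ ζ : ℝ, Transcendental ℚ ζ ∧ ∀ n : ℕ, 1 ≤ n →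
        JointSpectrum.wExact n ζ = (w n : EReal) ∧ JointSpectrum.wStarExact n ζ = (w n : EReal) ∧
        ((w n = n ∨ (2 ≤ n ∧ w n = w 1)) →
          wHatExact n ζ = (((n : ℝ) / (w n - n + 1) : ℝ) : EReal) ∧
          wHatStarExact n ζ = (((n : ℝ) / (w n - n + 1) : ℝ) : EReal)) := by
    intro w hw1 hw2
    obtain ⟨ξ, -, h1, h2, h3⟩ := Pool.Agent.Y627.SP.all_deg (fun _ => 0) w hw1 hw2
    have hroot := Pool.Agent.Y627.SP.no_root ξ w h1
    have htr : Transcendental ℤ ξ := by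
      rintro ⟨P, hP, h⟩
      exact hroot P hP h
    refine ⟨ξ, Pool.Agent.Y627.SP.trans_of_no_root ξ hroot, fun n hn => ?_⟩
    have hn1 : (1 : ℝ) ≤ n := by exact_mod_cast hn
    have hwn := hw1 n hn
    refine ⟨le_antisymm
        (MahlerSpectrum.wExact_le ξ (w n) (by linarith) htr (h1 n hn))
        (MahlerSpectrum.le_wExact ξ (w n) (by linarith) htr (h3 n hn)),
      le_antisymm (JointSpectrum.wStar_le ξ (w n) (by linarith) hroot (h2 n hn))
        (JointSpectrum.le_wStar ξ (w n) (by linarith) hroot (h3 n hn)), ?_⟩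
    intro hcase
    obtain ⟨l1, l2⟩ := lower_aux n hn ξ (w n) hwn hroot (h1 n hn)
    rcases hcase with h | ⟨hn2, h⟩
    · obtain ⟨u1, u2⟩ := upper_triv n ξ (w n) (by linarith) hroot (h1 n hn)
      have he : (n : ℝ) / (w n - n + 1) = w n := by rw [h, sub_self, zero_add, div_one]
      rw [he] at l1 l2 ⊢
      exact ⟨le_antisymm u1 l1, le_antisymm u2 l2⟩
    · have h31 := h3 1 le_rfl
      rw [← h] at h31
      obtain ⟨u1, u2⟩ := upper_aux n hn2 ξ (w n) hwn h31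
      exact ⟨le_antisymm u1 l1, le_antisymm u2 l2⟩
  refine ⟨fun n ζ W hn hζ hW hM => lower_aux n hn ζ W hW (root_of_trans hζ)
    (fun v hv => fin_of_mahler hζ hM v hv), hB, fun n hn => ?_⟩
  have hn1 : (2 : ℝ) ≤ n := by exact_mod_cast hn
  -- positive values
  have hpos : ∀ v : ℝ, 0 < v → v ≤ n → ∃ ζ : ℝ, Transcendental ℚ ζ ∧ wHatExact n ζ = (v : EReal) ∧
      wHatStarExact n ζ = (v : EReal) := by
    intro v hv hvn
    set w : ℝ := n - 1 + n / v with hw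
    have hnv : 1 ≤ (n : ℝ) / v := by rw [one_le_div hv]; exact hvn
    obtain ⟨ζ, hζ, hall⟩ := hB (fun j => max w j) (fun j _ => le_max_right _ _)
      (fun i j _ hij => max_le_max le_rfl (by exact_mod_cast hij))
    have hwn : max w (n : ℝ) = w := max_eq_left (by rw [hw]; linarith)
    have hw1 : max w ((1 : ℕ) : ℝ) = w := max_eq_left (by rw [hw]; push_cast; linarith)
    have h := (hall n (by omega)).2.2 (Or.inr ⟨hn, by rw [hwn, hw1]⟩)
    simp only [hwn] at h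
    have he : (n : ℝ) / (w - n + 1) = v := by
      have h2 : w - n + 1 = n / v := by rw [hw]; ring
      rw [h2]
      field_simp
    rw [he] at h
    exact ⟨ζ, hζ, h.1, h.2⟩
  -- the value zero
  have hzero : ∃ ζ : ℝ, Transcendental ℚ ζ ∧ wHatExact n ζ = 0 ∧ wHatStarExact n ζ = 0 := by
    obtain ⟨ξ, hξ, hinf⟩ := Pool.Agent.TH970.SE.top (n := 1) le_rfl
    have hQ := MahlerSpectrum.trans_Q hξ
    obtain ⟨l1, l2⟩ := nonneg_aux n (by omega) ξ hQ
    have key : ∀ δ : ℝ, 0 < δ → wHatExact n ξ ≤ (δ : EReal) ∧ wHatStarExact n ξ ≤ (δ : EReal) := by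
      intro δ hδ
      set w : ℝ := n + n / δ with hw
      have h0 : 0 < (n : ℝ) / δ := by positivity
      obtain ⟨u1, u2⟩ := upper_aux n hn ξ w (by rw [hw]; linarith) (hinf w (by rw [hw]; positivity))
      have he : (n : ℝ) / (w - n + 1) ≤ δ := by
        have h2 : w - n + 1 = n / δ + 1 := by rw [hw]; ring
        rw [h2, div_le_iff₀ (by linarith)]
        have : δ * ((n : ℝ) / δ + 1) = n + δ := by field_simp
        linarith
      exact ⟨u1.trans (EReal.coe_le_coe_iff.2 he), u2.trans (EReal.coe_le_coe_iff.2 he)⟩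
    have main : ∀ x : EReal, (∀ δ : ℝ, 0 < δ → x ≤ (δ : EReal)) → x ≤ 0 := by
      intro x hx
      apply le_of_forall_gt
      intro c hc
      obtain ⟨r, hr1, hr2⟩ := EReal.lt_iff_exists_real_btwn.1 hc
      have hr1' : 0 < r := by exact_mod_cast hr1
      exact (hx r hr1').trans_lt hr2
    exact ⟨ξ, hQ, le_antisymm (main _ fun δ h => (key δ h).1) l1,
      le_antisymm (main _ fun δ h => (key δ h).2) l2⟩
  have hall : ∀ x : EReal, x ∈ Set.Icc (0 : EReal) (n : EReal) →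
      ∃ ζ : ℝ, Transcendental ℚ ζ ∧ wHatExact n ζ = x ∧ wHatStarExact n ζ = x := by
    rintro x ⟨hx0, hxn⟩
    induction x with
    | bot => exact absurd (le_bot_iff.1 hx0) (by simp)
    | top => exact absurd (top_le_iff.1 hxn) (EReal.natCast_ne_top n)
    | coe v =>
      have hv0 : 0 ≤ v := by exact_mod_cast hx0
      have hvn : v ≤ n := by exact_mod_cast hxn
      rcases hv0.eq_or_lt with h | h
      · rw [← h]
        exact hzero
      · exact hpos v h hvn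
  exact ⟨fun x hx => by obtain ⟨ζ, h1, h2, -⟩ := hall x hx; exact ⟨ζ, h1, h2⟩,
    fun x hx => by obtain ⟨ζ, h1, -, h3⟩ := hall x hx; exact ⟨ζ, h1, h3⟩⟩

end Pool.Agent.Results.MP_5a602a_nt.UniformSpectra
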